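import Mathlib
import Pool.Agent.Y137.SL.Defs
import Pool.Agent.Y1.CT.UnrelDefs

/-!
# Classes of small degree on the abelian part: definitions
-/

set_option autoImplicit false

namespace Run7.h89.TL

open NumberField Module Pool.Agent.Y137.MV Pool.Agent.Y137.SL Pool.Agent.Y1.CT

/-- The angle rank: the rank of the multiplicative group generated by the complex numbers
`φ (π i) ^ 2 / q`, where `φ` runs through the complex embeddings of the fields `F i`. -/
noncomputable def angleRank {ι : Type*} {F : ι → Type*} [∀ i, Field (F i)] (q : ℝ)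
    (π : ∀ i, F i) : ℕ :=
  finrank ℤ (Submodule.span ℤ {u : Additive ℂˣ | ∃ (i : ι) (φ : F i →+* ℂ),
    ((u.toMul : ℂˣ) : ℂ) = φ (π i) ^ 2 / q})

section classes

variable {k : Type*} [Field k] {V : Type*} [AddCommGroup V] [Module k V]
  {M : Type*} [AddCommGroup M] [Module k M] {Γ : Type*} [Group Γ]

/-- Equivariant alternating maps from `V ^ n` to `M` in at most `2 r` variables vanish if the number of
variables is odd, and they are linear combinations of products of Tate forms of degree two and of Tate
vectors if it is even. -/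
def ClassesSplitUpTo (ρ : Representation k Γ V) (χ : Γ →* k) (τ : Representation k Γ M)
    (r : ℕ) : Prop :=
  (∀ n m : ℕ, m ≤ r → ∀ g : (Fin n → V) [⋀^Fin m × Fin 2]→ₗ[k] M, IsEquivariant ρ τ g →
    g ∈ Submodule.span k {h | IsProduct ρ χ τ h}) ∧
  ∀ n m : ℕ, 2 * m + 1 ≤ 2 * r → ∀ g : (Fin n → V) [⋀^Fin (2 * m + 1)]→ₗ[k] M,
    IsEquivariant ρ τ g → g = 0

end classes

end Run7.h89.TL
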