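import Mathlib
import Pool.Agent.Run7.h237.AR.Bal
import Pool.Agent.Y1.TS.Forces

/-!
# Short relations with an unrelated number are trivial
-/

set_option autoImplicit false
set_option linter.unusedSectionVars false
set_option linter.unusedVariables false

namespace Run7.h89.TL

open NumberField Module Finset Pool.Agent.H204R3.CM Pool.Agent.H204R3.SP Pool.Agent.H204R3.GP
  Pool.Agent.Y137.MV Pool.Agent.Y1.CT

/-- The product of the values of a balanced family. -/
theorem prod_sq_of_balanced {p : ℕ} [Fact p.Prime] {a : ℕ} {ι : Type*} [Fintype ι] {F : ι → Type*}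
    [∀ i, Field (F i)] [∀ i, NumberField (F i)] [∀ i, IsCMField (F i)] {π : ∀ i, F i}
    (hw : ∀ i, π i * IsCMField.complexConj (F i) (π i) = (p : F i) ^ a)
    {L : Type*} [Field L] [NumberField L] [IsGalois ℚ L] [DecidableEq (Σ i, (F i →+* L))]
    {κ : Type*} [Fintype κ] (J : κ → (Σ i, (F i →+* L)))
    (hJ : ∀ y, (univ.filter (fun l => J l = y)).card =
      (univ.filter (fun l => J l = bar y)).card) :
    (∏ l, val π (J l)) ^ 2 = ((p : L) ^ a) ^ Fintype.card κ := by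
  classical
  have h1 : ∀ G : (Σ i, (F i →+* L)) → L, ∏ l, G (J l) =
      ∏ x, G x ^ (univ.filter (fun l => J l = x)).card := by
    intro G
    rw [← Finset.prod_fiberwise (s := univ) (g := fun l => J l) (f := fun l => G (J l))]
    refine prod_congr rfl fun x _ => ?_
    have h2 : ∀ l ∈ univ.filter (fun l => J l = x), G (J l) = G x := by
      intro l hl
      rw [(mem_filter.1 hl).2]
    rw [prod_congr rfl h2, prod_const]
  have h2 : ∏ l, val π (bar (J l)) = ∏ l, val π (J l) := by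
    rw [h1 (fun x => val π (bar x)), h1 (fun x => val π x)]
    refine prod_nbij' bar bar (fun _ _ => mem_univ _) (fun _ _ => mem_univ _)
      (fun y _ => bar_bar y) (fun y _ => bar_bar y) ?_
    intro y _
    rw [← hJ y]
  have h3 : (∏ l, val π (J l)) * (∏ l, val π (bar (J l))) = ((p : L) ^ a) ^ Fintype.card κ := by
    rw [← prod_mul_distrib]
    have h4 : ∀ l ∈ univ, val π (J l) * val π (bar (J l)) = (p : L) ^ a := fun l _ => val_bar hw _
    rw [prod_congr rfl h4, prod_const, card_univ]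
  rw [sq]
  conv_lhs => rw [← h2]
  rw [h2, ← h3, h2]

/-- An automorphism of the complex numbers induces an automorphism of a Galois extension. -/
theorem exists_restrict {L : Type*} [Field L] [NumberField L] [IsGalois ℚ L] (j : L →+* ℂ)
    (τ : ℂ ≃+* ℂ) : ∃ σ : L ≃ₐ[ℚ] L, ∀ x, j (σ x) = τ (j x) := by
  let : Algebra L ℂ := j.toAlgebra
  have : IsScalarTower ℚ L ℂ := IsScalarTower.of_algebraMap_eq (fun x => by
    simp)
  let τ' : ℂ ≃ₐ[ℚ] ℂ := AlgEquiv.ofRingEquiv (f := τ) (fun x => by simp)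
  refine ⟨τ'.restrictNormal L, fun x => ?_⟩
  exact AlgEquiv.restrictNormal_commutes τ' L x

theorem forces_low {p : ℕ} [Fact p.Prime] {a : ℕ} {ι : Type} [Fintype ι] {F : ι → Type}
    [∀ i, Field (F i)] [∀ i, NumberField (F i)] [∀ i, IsCMField (F i)] {π : ∀ i, F i}
    (hw : ∀ i, π i * IsCMField.complexConj (F i) (π i) = (p : F i) ^ a)
    {L : Type*} [Field L] [NumberField L] [IsGalois ℚ L] [DecidableEq (Σ i, (F i →+* L))]
    (j : L →+* ℂ)
    (h : ∀ i, ∀ ψ : F i →+* ℂ, ∃ φ : F i →+* L, j.comp φ = ψ)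
    {r : ℕ} (hr : ∀ J : Finset ι, J.Nonempty →
      2 * r * (∑ i ∈ J, finrank ℚ (maximalRealSubfield (F i)) -
        Run7.h237.AR.angleRank ((p : ℝ) ^ a) (fun i : J => π i)) <
          ∑ i ∈ J, finrank ℚ (maximalRealSubfield (F i)))
    {β : L} (hun : ∀ i, UnrelatedTo (F i) (j β)) {κ : Type*} [Fintype κ]
    (hκ : Fintype.card κ ≤ 2 * r) (I : κ → (Σ i, (F i →+* L))) {N : ℕ} (hN : 0 < N)
    (hβN : β ^ N = ∏ l, (val π (I l)) ^ N) (y : Σ i, (F i →+* L)) :
    (univ.filter (fun l => I l = y)).card = (univ.filter (fun l => I l = bar y)).card := by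
  classical
  have hp : p.Prime := Fact.out
  have hq : (0 : ℚ) < (p : ℚ) ^ a := pow_pos (by exact_mod_cast hp.pos) _
  have hqr : ((((p : ℚ) ^ a : ℚ)) : ℝ) = (p : ℝ) ^ a := by push_cast; rfl
  have hweil : ∀ i, ∀ φ : F i →+* ℂ, ‖φ (π i)‖ ^ 2 = (((p : ℚ) ^ a : ℚ) : ℝ) := by
    intro i φ
    have h1 := congrArg φ (hw i)
    rw [map_mul, IsCMField.complexEmbedding_complexConj, map_pow, map_natCast, Complex.mul_conj,
      Complex.normSq_eq_norm_sq] at h1
    rw [hqr]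
    exact_mod_cast h1
  -- a common exponent
  have hex : ∀ σ : L ≃ₐ[ℚ] L, ∃ m : ℕ, 0 < m ∧
      ((∃ m' : ℕ, 0 < m' ∧ σ (β ^ m') = β ^ m') → σ (β ^ m) = β ^ m) := by
    intro σ
    by_cases h1 : ∃ m' : ℕ, 0 < m' ∧ σ (β ^ m') = β ^ m'
    · obtain ⟨m', h2, h3⟩ := h1
      exact ⟨m', h2, fun _ => h3⟩
    · exact ⟨1, one_pos, fun h2 => absurd h2 h1⟩
  choose m hm0 hm using hex
  set M : ℕ := ∏ σ : L ≃ₐ[ℚ] L, m σ with hM
  have hM0 : 0 < M := prod_pos fun σ _ => hm0 σ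
  have hMfix : ∀ σ : L ≃ₐ[ℚ] L, (∃ m' : ℕ, 0 < m' ∧ σ (β ^ m') = β ^ m') →
      σ (β ^ M) = β ^ M := by
    intro σ h1
    obtain ⟨c, hc⟩ : m σ ∣ M := dvd_prod_of_mem m (mem_univ σ)
    rw [hc, pow_mul, map_pow, hm σ h1]
  -- the group
  let H : Finset (L ≃ₐ[ℚ] L) := univ.filter (fun σ => σ (β ^ M) = β ^ M)
  have hH1 : (1 : L ≃ₐ[ℚ] L) ∈ H := mem_filter.2 ⟨mem_univ _, rfl⟩
  have hH0 : 0 < H.card := card_pos.2 ⟨1, hH1⟩
  have hHmul : ∀ σ ∈ H, ∀ τ ∈ H, σ * τ ∈ H := by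
    intro σ hσ τ hτ
    have h1 := (mem_filter.1 hσ).2
    have h2 := (mem_filter.1 hτ).2
    refine mem_filter.2 ⟨mem_univ _, ?_⟩
    rw [AlgEquiv.mul_apply, h2, h1]
  have hHinv : ∀ σ ∈ H, σ⁻¹ ∈ H := by
    intro σ hσ
    have h1 := (mem_filter.1 hσ).2
    refine mem_filter.2 ⟨mem_univ _, ?_⟩
    apply σ.injective
    rw [h1]
    exact (AlgEquiv.apply_symm_apply σ _)
  let J : H × κ → (Σ i, (F i →+* L)) := fun z => (z.1 : L ≃ₐ[ℚ] L) • I z.2
  have hcntJ : ∀ τ ∈ H, ∀ x, (univ.filter (fun z => J z = τ • x)).card =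
      (univ.filter (fun z => J z = x)).card := by
    intro τ hτ x
    refine card_bij' (fun z _ => (⟨τ⁻¹ * z.1, hHmul _ (hHinv _ hτ) _ z.1.2⟩, z.2))
      (fun z _ => (⟨τ * z.1, hHmul _ hτ _ z.1.2⟩, z.2)) ?_ ?_ ?_ ?_
    · intro z hz
      have h1 := (mem_filter.1 hz).2
      refine mem_filter.2 ⟨mem_univ _, ?_⟩
      change (τ⁻¹ * (z.1 : L ≃ₐ[ℚ] L)) • I z.2 = x
      change (z.1 : L ≃ₐ[ℚ] L) • I z.2 = τ • x at h1
      rw [mul_smul, h1, inv_smul_smul]
    · intro z hz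
      have h1 := (mem_filter.1 hz).2
      refine mem_filter.2 ⟨mem_univ _, ?_⟩
      change (τ * (z.1 : L ≃ₐ[ℚ] L)) • I z.2 = τ • x
      change (z.1 : L ≃ₐ[ℚ] L) • I z.2 = x at h1
      rw [mul_smul, h1]
    · intro z _
      apply Prod.ext
      · apply Subtype.ext
        change τ * (τ⁻¹ * (z.1 : L ≃ₐ[ℚ] L)) = z.1
        rw [mul_inv_cancel_left]
      · rfl
    · intro z _
      apply Prod.ext
      · apply Subtype.ext
        change τ⁻¹ * (τ * (z.1 : L ≃ₐ[ℚ] L)) = z.1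
        rw [inv_mul_cancel_left]
      · rfl
  -- the family is balanced
  have hJbal : ∀ x, (univ.filter (fun z => J z = x)).card =
      (univ.filter (fun z => J z = bar x)).card := by
    rintro ⟨i, φ₀⟩
    let cnt : (F i →+* L) → ℤ := fun φ => ((univ.filter (fun z => J z = ⟨i, φ⟩)).card : ℤ)
    choose lift hlift using h i
    let n : (F i →+* ℂ) → ℚ := fun ψ =>
      (cnt (lift ψ) : ℚ) - (cnt (cbar (lift ψ)) : ℚ)
    have hl : ∀ φ : F i →+* L, lift (j.comp φ) = φ := fun φ =>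
      Pool.Agent.H194R3.CM.comp_injective j (hlift (j.comp φ))
    have hlc : ∀ ψ : F i →+* ℂ, lift (ComplexEmbedding.conjugate ψ) = cbar (lift ψ) := by
      intro ψ
      have h1 : ComplexEmbedding.conjugate ψ = j.comp (cbar (lift ψ)) := by
        rw [comp_cbar, hlift]
      rw [h1, hl]
    have hodd : ∀ ψ, n (ComplexEmbedding.conjugate ψ) = - n ψ := by
      intro ψ
      simp only [n, hlc, cbar_cbar]
      ring
    have hinv : ∀ τ : ℂ ≃+* ℂ, (∃ m : ℕ, 0 < m ∧ τ ((j β) ^ m) = (j β) ^ m) →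
        ∀ ψ : F i →+* ℂ, n ((τ : ℂ →+* ℂ).comp ψ) = n ψ := by
      rintro τ ⟨m', hm', hτ⟩ ψ
      obtain ⟨σ, hσ⟩ := exists_restrict j τ
      have h1 : σ (β ^ m') = β ^ m' := by
        apply j.injective
        rw [hσ, map_pow, hτ]
      have hσH : σ ∈ H := mem_filter.2 ⟨mem_univ _, hMfix σ ⟨m', hm', h1⟩⟩
      have h2 : lift ((τ : ℂ →+* ℂ).comp ψ) = (σ : L →+* L).comp (lift ψ) := by
        apply Pool.Agent.H194R3.CM.comp_injective j
        rw [hlift]
        ext x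
        have h3 : ψ x = j (lift ψ x) := (RingHom.congr_fun (hlift ψ) x).symm
        change τ (ψ x) = j (σ (lift ψ x))
        rw [hσ, h3]
      have h4 : cbar ((σ : L →+* L).comp (lift ψ)) = (σ : L →+* L).comp (cbar (lift ψ)) := rfl
      have h5 : ∀ φ : F i →+* L, cnt ((σ : L →+* L).comp φ) = cnt φ := by
        intro φ
        have h6 := hcntJ σ hσH ⟨i, φ⟩
        simp only [cnt]
        exact_mod_cast h6
      simp only [n]
      rw [h2, h4, h5, h5]
    have hn := hun i n hodd hinv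
    have h9 : n (j.comp φ₀) = 0 := by rw [hn]; rfl
    simp only [n, hl] at h9
    have h10 := sub_eq_zero.1 h9
    have h11 : cnt φ₀ = cnt (cbar φ₀) := Int.cast_injective (α := ℚ) h10
    exact Int.ofNat_inj.1 h11
  -- the product
  have h1 := prod_sq_of_balanced hw J hJbal
  have h2 : ∏ z, val π (J z) = ∏ σ : H, (σ : L ≃ₐ[ℚ] L) (∏ l, val π (I l)) := by
    rw [Fintype.prod_prod_type]
    refine prod_congr rfl fun σ _ => ?_
    rw [map_prod]
    rfl
  have h3 : ((∏ l, val π (I l)) ^ N) = β ^ N := by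
    rw [hβN, prod_pow]
  have h4 : (∏ z, val π (J z)) ^ (N * M) = ((∏ l, val π (I l)) ^ (N * M)) ^ H.card := by
    rw [h2, ← prod_pow]
    have h5 : ∀ σ ∈ (univ : Finset H), ((σ : L ≃ₐ[ℚ] L) (∏ l, val π (I l))) ^ (N * M) =
        (∏ l, val π (I l)) ^ (N * M) := by
      intro σ _
      rw [← map_pow, pow_mul, h3, ← pow_mul, mul_comm N M, pow_mul, map_pow,
        (mem_filter.1 σ.2).2]
    rw [prod_congr rfl h5, prod_const, card_univ, Fintype.card_coe]
  have hs : 0 < N * M * H.card := Nat.mul_pos (Nat.mul_pos hN hM0) hH0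
  have h6 : (∏ l, (I l).2 (π (I l).1)) ^ (2 * (N * M * H.card)) =
      ((((p : ℚ) ^ a : ℚ) : L) ^ Fintype.card κ) ^ (N * M * H.card) := by
    have h7 : (((p : ℚ) ^ a : ℚ) : L) = (p : L) ^ a := by push_cast; rfl
    have h8 : (∏ l, val π (I l)) ^ (2 * (N * M * H.card)) =
        (((∏ l, val π (I l)) ^ (N * M)) ^ H.card) ^ 2 := by
      rw [← pow_mul, ← pow_mul]
      congr 1
      ring
    change (∏ l, val π (I l)) ^ (2 * (N * M * H.card)) = _
    rw [h7, h8, ← h4, ← pow_mul, mul_comm (N * M) 2, pow_mul, h1, Fintype.card_prod,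
      Fintype.card_coe, ← pow_mul, ← pow_mul, ← pow_mul, ← pow_mul]
    congr 1
    ring
  exact Run7.h237.AR.balanced hq hweil j h (r := r) (by rw [hqr]; exact hr) hκ I hs h6 y

/-- A number with a power that is a power of an unrelated number is unrelated. -/
theorem unrelated_of_pow {K : Type} [Field K] {α β : ℂ} {N : ℕ} (hN : 0 < N) (h : α ^ N = β ^ N)
    (hα : UnrelatedTo K α) : UnrelatedTo K β := by
  intro n hodd hinv
  refine hα n hodd ?_
  rintro τ ⟨m, hm, hτ⟩ φ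
  refine hinv τ ⟨m * N, Nat.mul_pos hm hN, ?_⟩ φ
  have h1 : β ^ (m * N) = (α ^ m) ^ N := by
    rw [← pow_mul, mul_comm m N, pow_mul, ← h, ← pow_mul]
  rw [h1, map_pow, hτ]

/-- The quotient of a rational number by an unrelated number is unrelated. -/
theorem unrelated_div {K : Type} [Field K] {ρ : ℂ} (c : ℕ) (hρ : UnrelatedTo K ρ) :
    UnrelatedTo K ((c : ℂ) / ρ) := by
  by_cases hc : (c : ℂ) = 0
  · intro n hodd hinv
    refine hρ n hodd ?_
    rintro τ - φ
    refine hinv τ ⟨1, one_pos, ?_⟩ φ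
    rw [hc, zero_div, pow_one, map_zero]
  · intro n hodd hinv
    refine hρ n hodd ?_
    rintro τ ⟨m, hm, hτ⟩ φ
    refine hinv τ ⟨m, hm, ?_⟩ φ
    rw [div_pow, map_div₀, hτ, map_pow, map_natCast]

theorem forces_low' {p : ℕ} [Fact p.Prime] {a : ℕ} {ι : Type} [Fintype ι] {F : ι → Type}
    [∀ i, Field (F i)] [∀ i, NumberField (F i)] [∀ i, IsCMField (F i)] {π : ∀ i, F i}
    (hw : ∀ i, π i * IsCMField.complexConj (F i) (π i) = (p : F i) ^ a)
    {L : Type*} [Field L] [NumberField L] [IsGalois ℚ L] [DecidableEq (Σ i, (F i →+* L))]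
    (j : L →+* ℂ)
    (h : ∀ i, ∀ ψ : F i →+* ℂ, ∃ φ : F i →+* L, j.comp φ = ψ)
    {r : ℕ} (hr : ∀ J : Finset ι, J.Nonempty →
      2 * r * (∑ i ∈ J, finrank ℚ (maximalRealSubfield (F i)) -
        Run7.h237.AR.angleRank ((p : ℝ) ^ a) (fun i : J => π i)) <
          ∑ i ∈ J, finrank ℚ (maximalRealSubfield (F i)))
    {α : ℂ} (hun : ∀ i, UnrelatedTo (F i) α) {κ : Type*} [Fintype κ]
    (hκ : Fintype.card κ ≤ 2 * r) (I : κ → (Σ i, (F i →+* L))) {N : ℕ} (hN : 0 < N)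
    (hβN : α ^ N = j (∏ l, val π (I l)) ^ N) (y : Σ i, (F i →+* L)) :
    (univ.filter (fun l => I l = y)).card = (univ.filter (fun l => I l = bar y)).card :=
  forces_low hw j h hr (β := ∏ l, val π (I l))
    (fun i => unrelated_of_pow hN hβN (hun i)) hκ I one_pos (by simp) y

end Run7.h89.TL
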