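import Mathlib
import Pool.Agent.W484.AA.Tate
import Pool.Agent.Run7.h89.TL.Forces
import Pool.Agent.Run7.h89.TL.Defs

/-!
# Tate classes on products of abelian varieties and arbitrary varieties, small degree
-/

set_option autoImplicit false
set_option linter.unusedSectionVars false
set_option linter.unusedVariables false

namespace Run7.h89.TL

open Polynomial Module Pool.Agent.H925R2 Pool.Agent.H485R3 Pool.Agent.W484.BB
  ExteriorAlgebra Pool.Agent.H204R3.CM
  Pool.Agent.H868R3.TwoOdd Pool.Agent.H194R3.Weil TensorProduct Pool.Agent.W484.AS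
  Pool.Agent.W484.AA NumberField Pool.Agent.Y1.CT

section general

variable {V : Type*} [AddCommGroup V] [Module ℂ V] {H : Type*} [AddCommGroup H] [Module ℂ H]

/-- A relation with at most `B` factors implies a pair. -/
def PairPropLow {X : Type*} (B : ℕ) (val : X → ℂ) (Q ρ : ℂ) (w : ℕ) : Prop :=
  ∀ n c s : ℕ, 0 < s → 0 < n → n ≤ B → n + w = 2 * c → ∀ ys : List X, ys.length = n →
    ((ys.map val).prod * ρ) ^ s = (Q ^ c) ^ s →
      ¬ ys.Pairwise (fun y y' => ¬ Pool.Agent.W484.BB.Good Q (val y) (val y'))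

theorem list_gen_low {X : Type*} (B : ℕ) (F : V →ₗ[ℂ] V) (val : X → ℂ) (Q ρ : ℂ) (hQ : Q ≠ 0)
    (w : ℕ) (hpair : PairPropLow B val Q ρ w) :
    ∀ n c s : ℕ, n ≤ B → 0 < s → n + w = 2 * c → ∀ L : List (V × X), L.length = n →
      (∀ e ∈ L, F e.1 = val e.2 • e.1) →
      ((L.map (fun e => val e.2)).prod * ρ) ^ s = (Q ^ c) ^ s →
      ∃ k b : ℕ, n = 2 * k ∧ w = 2 * b ∧
        (L.map (fun e => ι ℂ e.1)).prod ∈ divSpan F Q k ∧
          ∃ N : ℕ, 0 < N ∧ ρ ^ N = (Q ^ b) ^ N := by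
  intro n
  induction n using Nat.strong_induction_on with
  | _ n ih =>
    intro c s hnB hs hnc L hlen hL hrel
    rcases Nat.eq_zero_or_pos n with hn | hn
    · subst hn
      have hL0 : L = [] := List.length_eq_zero_iff.1 hlen
      subst hL0
      refine ⟨0, c, rfl, by omega, Submodule.subset_span ⟨Fin.elim0, fun l => l.elim0, by simp⟩,
        s, hs, ?_⟩
      simpa using hrel
    · have h1 := hpair n c s hs hn hnB hnc (L.map Prod.snd) (by rw [List.length_map, hlen]) (by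
        rw [List.map_map]
        exact hrel)
      rw [List.pairwise_map] at h1
      obtain ⟨e, e', L', hperm, hgood⟩ := exists_of_not_pairwise _ L h1
      rw [not_not] at hgood
      have heL : e ∈ L := hperm.mem_iff.2 (by simp)
      have heL' : e' ∈ L := hperm.mem_iff.2 (by simp)
      have hlen' : n = L'.length + 2 := by
        have h2 := hperm.length_eq
        rw [List.length_cons, List.length_cons, hlen] at h2
        omega
      obtain ⟨c', rfl⟩ : ∃ c', c = c' + 1 := ⟨c - 1, by omega⟩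
      obtain ⟨b', hb'⟩ := prod_perm (K := ℂ) hperm
      obtain ⟨N, hN, hg⟩ := hgood
      obtain ⟨k, b, h2, h3, h4, h5⟩ := ih L'.length (by omega) c' (s * N) (by omega) (Nat.mul_pos hs hN)
        (by omega) L' rfl (fun e₁ he₁ => hL e₁ (hperm.mem_iff.2
          (List.mem_cons_of_mem _ (List.mem_cons_of_mem _ he₁)))) (by
        have h3 : (L.map (fun e => val e.2)).prod =
            val e.2 * val e'.2 * (L'.map (fun e => val e.2)).prod := by
          rw [(hperm.map (fun e => val e.2)).prod_eq, List.map_cons, List.prod_cons,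
            List.map_cons, List.prod_cons, mul_assoc]
        rw [h3] at hrel
        have h4 := congrArg (fun z => z ^ N) hrel
        beta_reduce at h4
        have h5 : ((val e.2 * val e'.2 * (L'.map (fun e => val e.2)).prod * ρ) ^ s) ^ N =
            ((val e.2 * val e'.2) ^ N) ^ s *
              ((L'.map (fun e => val e.2)).prod * ρ) ^ (s * N) := by
          rw [← pow_mul, ← pow_mul, mul_assoc (val e.2 * val e'.2), mul_pow,
            mul_comm N s]
        rw [h5, hg] at h4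
        have h6 : ((Q ^ (c' + 1)) ^ s) ^ N = (Q ^ N) ^ s * (Q ^ c') ^ (s * N) := by
          ring
        rw [h6] at h4
        exact mul_left_cancel₀ (pow_ne_zero _ (pow_ne_zero _ hQ)) h4)
      refine ⟨k + 1, b, by omega, h3, ?_, h5⟩
      rw [hb']
      refine Submodule.smul_mem _ _ ?_
      rw [List.map_cons, List.prod_cons, List.map_cons, List.prod_cons, ← mul_assoc]
      exact mul_mem_divSpan F _ k _
        (isDivisorClass_of_good F _ _ _ _ _ (hL e heL) (hL e' heL') ⟨N, hN, hg⟩) _ h4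

/-- **Tate classes on the product.** -/
theorem mem_tateProducts_low {X : Type*} [FiniteDimensional ℂ V] [FiniteDimensional ℂ H]
    (F : V →ₗ[ℂ] V) (val : X → ℂ) (hF : Submodule.span ℂ {v : V | ∃ x, F v = val x • v} = ⊤)
    (Q : ℂ) (hQ : Q ≠ 0) (G : H →ₗ[ℂ] H) (w : ℕ)
    {B : ℕ} (hG : ∀ ρ, Module.End.HasEigenvalue G ρ → PairPropLow B val Q ρ w)
    (n c s : ℕ) (hnB : n ≤ B) (hs : 0 < s) (hnc : n + w = 2 * c) (u : (⋀[ℂ]^n V) ⊗[ℂ] H)
    (hu : TensorProduct.map (exteriorPower.map n F ^ s) (G ^ s) u = (Q ^ c) ^ s • u) :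
    incl V H n u ∈ tateProducts F G Q n w := by
  classical
  obtain ⟨r, b', α, hα, hb'⟩ := exists_eigenbasis_list F val hF n
  obtain ⟨h, hh, h1⟩ := components_left (exteriorPower.map n F ^ s) (G ^ s) b'
    (fun j => α j ^ s) (fun j => pow_apply_eigen _ _ _ (hb' j) s) _ u hu
  rw [hh, map_sum]
  refine Submodule.sum_mem _ fun j _ => ?_
  have h5 : incl V H n (b' j ⊗ₜ h j) = (b' j : ExteriorAlgebra ℂ V) ⊗ₜ h j := by
    rw [incl, TensorProduct.map_tmul]
    rfl
  rw [h5]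
  by_cases hj : h j = 0
  · rw [hj, TensorProduct.tmul_zero]
    exact Submodule.zero_mem _
  have hα0 : α j ^ s ≠ 0 := by
    intro h0
    have h2 := h1 j
    rw [h0, zero_smul] at h2
    have h3 : ((Q ^ c) ^ s) • h j = 0 := h2.symm
    rcases smul_eq_zero.1 h3 with h4 | h4
    · exact pow_ne_zero _ (pow_ne_zero _ hQ) h4
    · exact hj h4
  obtain ⟨c', hc'⟩ : ∃ c', c' = (Q ^ c) ^ s / α j ^ s := ⟨_, rfl⟩
  have h2 : (G ^ s) (h j) = c' • h j := by
    have h3 := congrArg (fun z => (α j ^ s)⁻¹ • z) (h1 j)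
    simp only [smul_smul] at h3
    rw [inv_mul_cancel₀ hα0, one_smul] at h3
    rw [h3, hc', div_eq_inv_mul]
  have h3 : Module.End.HasEigenvalue (G ^ s) c' :=
    Module.End.hasEigenvalue_of_hasEigenvector ⟨Module.End.mem_eigenspace_iff.2 h2, hj⟩
  have h4 : c' ∈ spectrum ℂ (G ^ s) := Module.End.hasEigenvalue_iff_mem_spectrum.1 h3
  rw [spectrum.map_pow_of_pos G hs] at h4
  obtain ⟨ρ, hρ, hρs⟩ := h4
  have hρe : Module.End.HasEigenvalue G ρ := Module.End.hasEigenvalue_iff_mem_spectrum.2 hρ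
  have hpair := hG ρ hρe
  have hρs : ρ ^ s = c' := hρs
  have hrel : (α j * ρ) ^ s = (Q ^ c) ^ s := by
    rw [mul_pow, hρs, hc', mul_div_cancel₀ _ hα0]
  have hlist := list_gen_low (V := V) B F val Q ρ hQ w hpair n c s hnB hs hnc
  -- the second factor is a Tate class
  obtain ⟨L, hL, hLα⟩ := hα j
  obtain ⟨k, b, hk, hb, _, N, hN, hρN⟩ := hlist (L.map (fun x => ((0 : V), x)))
    (by rw [List.length_map, hL])
    (by
      intro e he
      rw [List.mem_map] at he
      obtain ⟨x, _, rfl⟩ := he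
      rw [map_zero, smul_zero]) (by
      rw [List.map_map]
      have h6 : ((fun e : V × X => val e.2) ∘ fun x => ((0 : V), x)) = val := rfl
      rw [h6, ← hLα]
      exact hrel)
  refine products_le F G Q k b n w hk hb (tmul_mem_products F G _ k b (h j) ?_ _ ?_)
  · refine ⟨s * N, Nat.mul_pos hs hN, ?_⟩
    rw [pow_mul, pow_apply_eigen (G ^ s) (h j) c' h2 N, ← hρs, ← pow_mul, mul_comm s N, pow_mul,
      hρN, ← pow_mul]
  · have h6 : ExteriorAlgebra.map F (b' j : ExteriorAlgebra ℂ V) = α j • (b' j :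
        ExteriorAlgebra ℂ V) := by
      rw [← Pool.Agent.W484.BB.coe_map, hb' j]
      rfl
    refine mem_of_lists_sub F val hF n 1 (α j) _ ?_ _ (b' j).2 (by
      rw [pow_one]
      exact h6)
    intro L hlen hL hLα
    rw [pow_one] at hLα
    obtain ⟨k', b'', hk', -, h7, -⟩ := hlist L hlen hL (by rw [hLα]; exact hrel)
    have h8 : k' = k := by omega
    rw [← h8]
    exact h7

end general

/-- The pairs. -/
theorem pairPropLow {p : ℕ} [Fact p.Prime] {a : ℕ} (ha : 0 < a) {ι : Type} [Fintype ι]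
    {F : ι → Type}
    [∀ i, Field (F i)] [∀ i, NumberField (F i)] [∀ i, IsCMField (F i)] {π : ∀ i, F i}
    (hw : ∀ i, π i * IsCMField.complexConj (F i) (π i) = (p : F i) ^ a)
    {r : ℕ} (hr : ∀ J : Finset ι, J.Nonempty →
      2 * r * (∑ i ∈ J, finrank ℚ (maximalRealSubfield (F i)) -
        Run7.h237.AR.angleRank ((p : ℝ) ^ a) (fun i : J => π i)) <
          ∑ i ∈ J, finrank ℚ (maximalRealSubfield (F i)))
    {t : ℕ} (ht : 0 < t) {ρ : ℂ} (hρ : ∀ i, UnrelatedTo (F i) ρ) (w : ℕ) :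
    PairPropLow (2 * r) (fun x : Σ i, (F i →+* ℂ) => (x.2 (π x.1)) ^ t)
      (((p : ℂ) ^ a) ^ t) ρ w := by
  classical
  intro n c s hs hn hnB hnc ys hlen hrel hpw
  obtain ⟨L, hL1, hL2, j, h⟩ := exists_galois F
  choose lift hlift using h
  have hp : (p : ℂ) ≠ 0 := Nat.cast_ne_zero.2 (Fact.out : p.Prime).ne_zero
  have hρ0 : ρ ≠ 0 := by
    intro h0
    rw [h0, mul_zero, zero_pow hs.ne'] at hrel
    exact pow_ne_zero _ (pow_ne_zero _ (pow_ne_zero _ (pow_ne_zero _ hp))) hrel.symm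
  let z : Fin ys.length → Σ i, (F i →+* ℂ) := fun l => ys.get l
  let I : Fin ys.length → (Σ i, (F i →+* L)) := fun l => ⟨(z l).1, lift (z l).1 (z l).2⟩
  have hjI : ∀ l, j (Pool.Agent.H204R3.GP.val π (I l)) = (z l).2 (π (z l).1) := by
    intro l
    exact RingHom.congr_fun (hlift (z l).1 (z l).2) (π (z l).1)
  have hprod : (ys.map (fun x : Σ i, (F i →+* ℂ) => (x.2 (π x.1)) ^ t)).prod =
      j (∏ l, Pool.Agent.H204R3.GP.val π (I l)) ^ t := by
    rw [map_prod, ← Finset.prod_pow]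
    conv_lhs => rw [← List.ofFn_get ys, List.map_ofFn, List.prod_ofFn]
    refine Finset.prod_congr rfl fun l _ => ?_
    rw [hjI]
    rfl
  let α : ℂ := (((p ^ (a * t * c) : ℕ) : ℂ)) / ρ
  have hα : ∀ i, UnrelatedTo (F i) α := fun i => unrelated_div _ (hρ i)
  have hαs : α ^ s = (j (∏ l, Pool.Agent.H204R3.GP.val π (I l)) ^ t) ^ s := by
    rw [hprod, mul_pow] at hrel
    have h1 : (((p ^ (a * t * c) : ℕ) : ℂ)) ^ s = ((((p : ℂ) ^ a) ^ t) ^ c) ^ s := by
      push_cast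
      rw [← pow_mul, ← pow_mul, ← pow_mul, ← pow_mul]
      congr 1
      ring
    change ((((p ^ (a * t * c) : ℕ) : ℂ)) / ρ) ^ s = _
    rw [div_pow, h1, ← hrel, mul_div_assoc, div_self (pow_ne_zero _ hρ0), mul_one]
  -- a root of the number
  obtain ⟨α', hα'⟩ := IsAlgClosed.exists_pow_nat_eq α ht
  have hα'un : ∀ i, UnrelatedTo (F i) α' := by
    intro i
    have h1 : α ^ 1 = α' ^ t := by rw [pow_one, hα']
    intro n' hodd hinv
    refine hα i n' hodd ?_
    rintro τ ⟨m, hm, hτ⟩ φ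
    refine hinv τ ⟨t * m, Nat.mul_pos ht hm, ?_⟩ φ
    rw [pow_mul, hα', hτ]
  have hbal := forces_low' hw j (fun i ψ => ⟨lift i ψ, hlift i ψ⟩) hr hα'un
    (κ := Fin ys.length) (by rw [Fintype.card_fin]; omega) I
    (N := t * s) (Nat.mul_pos ht hs) (by
      rw [pow_mul, hα', hαs, ← pow_mul])
  -- a pair
  have hpos : 0 < ys.length := by omega
  have h0 : 0 < (Finset.univ.filter (fun l => I l = I ⟨0, hpos⟩)).card :=
    Finset.card_pos.2 ⟨⟨0, hpos⟩, Finset.mem_filter.2 ⟨Finset.mem_univ _, rfl⟩⟩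
  rw [hbal, Finset.card_pos] at h0
  obtain ⟨l, hl⟩ := h0
  have hl2 : I l = Pool.Agent.H204R3.GP.bar (I ⟨0, hpos⟩) := (Finset.mem_filter.1 hl).2
  have hne : (⟨0, hpos⟩ : Fin ys.length) ≠ l := by
    intro h1
    rw [← h1] at hl2
    exact Pool.Agent.H204R3.GP.bar_ne _ hl2.symm
  have hgood : Pool.Agent.W484.BB.Good (((p : ℂ) ^ a) ^ t) (((z ⟨0, hpos⟩).2 (π (z ⟨0, hpos⟩).1)) ^ t)
      (((z l).2 (π (z l).1)) ^ t) := by
    refine ⟨1, one_pos, ?_⟩
    rw [pow_one, pow_one, ← mul_pow, ← hjI, ← hjI, hl2, ← map_mul,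
      Pool.Agent.H204R3.GP.val_bar hw, map_pow, map_natCast]
  have hgood' : Pool.Agent.W484.BB.Good (((p : ℂ) ^ a) ^ t) (((z l).2 (π (z l).1)) ^ t)
      (((z ⟨0, hpos⟩).2 (π (z ⟨0, hpos⟩).1)) ^ t) := by
    obtain ⟨N, hN, h1⟩ := hgood
    exact ⟨N, hN, by rw [mul_comm]; exact h1⟩
  rw [List.pairwise_iff_get] at hpw
  rcases lt_or_gt_of_ne hne with h1 | h1
  · exact hpw _ _ h1 hgood
  · exact hpw _ _ h1 hgood'

/-- Every class in `⋀ ^ n V ⊗ H`, `n ≤ B`, `n + w = 2 c`, on which the Frobenius of some extension of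
the field with `Q` elements acts as a power of `Q ^ c`, is a linear combination of products
of divisor classes and a Tate class in `H`. -/
def TateFormulaUpTo {V : Type} [AddCommGroup V] [Module ℂ V] {H : Type} [AddCommGroup H]
    [Module ℂ H] (B : ℕ) (Q : ℂ) (F : V →ₗ[ℂ] V) (G : H →ₗ[ℂ] H) (w : ℕ) : Prop :=
  ∀ n c N : ℕ, n ≤ B → n + w = 2 * c → 0 < N → ∀ u : (⋀[ℂ]^n V) ⊗[ℂ] H,
    TensorProduct.map (exteriorPower.map n F ^ N) (G ^ N) u = (Q ^ c) ^ N • u →
      incl V H n u ∈ tateProducts F G Q n w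

theorem finite_low {p : ℕ} [Fact p.Prime] {a : ℕ} (ha : 0 < a) {ι : Type} [Fintype ι]
    {F : ι → Type}
    [∀ i, Field (F i)] [∀ i, NumberField (F i)] [∀ i, IsCMField (F i)]
    {g : ι → ℕ} (hg : ∀ i, finrank ℚ (F i) = 2 * g i) {π : ∀ i, F i}
    (hw : ∀ i, π i * IsCMField.complexConj (F i) (π i) = (p : F i) ^ a)
    {r : ℕ} (hr : ∀ J : Finset ι, J.Nonempty →
      2 * r * (∑ i ∈ J, g i - angleRank ((p : ℝ) ^ a) (fun i : J => π i)) < ∑ i ∈ J, g i)
    {V : Type} [AddCommGroup V] [Module ℂ V] [FiniteDimensional ℂ V] (Fr : V →ₗ[ℂ] V)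
    (hF : Submodule.span ℂ {v : V | ∃ i, ∃ σ : F i →+* ℂ, Fr v = σ (π i) • v} = ⊤)
    {t : ℕ} (ht : 0 < t) {H : Type} [AddCommGroup H] [Module ℂ H] [FiniteDimensional ℂ H]
    (G : H →ₗ[ℂ] H) (w : ℕ) (hG : ∀ ρ, Module.End.HasEigenvalue G ρ → ∀ i, UnrelatedTo (F i) ρ) :
    TateFormulaUpTo (2 * r) (((p : ℂ) ^ a) ^ t) (Fr ^ t) G w := by
  classical
  intro n c N hnB hnc hN u hu
  have hg' : ∀ i, finrank ℚ (maximalRealSubfield (F i)) = g i := by
    intro i
    have h0 : finrank (maximalRealSubfield (F i)) (F i) = 2 :=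
      Algebra.IsQuadraticExtension.finrank_eq_two _ _
    have h1 := finrank_mul_finrank ℚ (maximalRealSubfield (F i)) (F i)
    rw [h0, hg i] at h1
    omega
  have hr' : ∀ J : Finset ι, J.Nonempty →
      2 * r * (∑ i ∈ J, finrank ℚ (maximalRealSubfield (F i)) -
        Run7.h237.AR.angleRank ((p : ℝ) ^ a) (fun i : J => π i)) <
          ∑ i ∈ J, finrank ℚ (maximalRealSubfield (F i)) := by
    intro J hJ
    simp only [hg']
    exact hr J hJ
  let val : (Σ i, (F i →+* ℂ)) → ℂ := fun x => (x.2 (π x.1)) ^ t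
  have hspan : Submodule.span ℂ {v : V | ∃ y, (Fr ^ t) v = val y • v} = ⊤ := by
    rw [eq_top_iff, ← hF]
    refine Submodule.span_mono ?_
    rintro v ⟨i, σ, hv⟩
    exact ⟨⟨i, σ⟩, pow_apply_eigen Fr v _ hv t⟩
  have hQ : ((p : ℂ) ^ a) ^ t ≠ 0 :=
    pow_ne_zero _ (pow_ne_zero _ (Nat.cast_ne_zero.2 (Fact.out : p.Prime).ne_zero))
  exact mem_tateProducts_low (Fr ^ t) val hspan _ hQ G w
    (fun ρ hρ => pairPropLow ha hw hr' ht (hG ρ hρ) w) n c N hnB hN hnc u hu

end Run7.h89.TL
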