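import Mathlib
import Pool.Agent.W484.AA.Tate
import Pool.Agent.Run7.h89.TL.Defs

/-!
# Constant varieties over function fields and classes of small degree: definitions
-/

set_option autoImplicit false

namespace Run7.h89.TL

open NumberField Module Pool.Agent.W484.BB Pool.Agent.W484.AA Pool.Agent.Y1.CT
open scoped TensorProduct

noncomputable section

/-- Finitely many Weil numbers `π i` for `p ^ a` in CM fields `E i` of degree `2 * g i`. -/
structure WeilNumbers (p : ℕ) where
  ι : Type
  [fintype : Fintype ι]
  E : ι → Type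
  [field : ∀ i, Field (E i)]
  [numberField : ∀ i, NumberField (E i)]
  [cm : ∀ i, IsCMField (E i)]
  π : ∀ i, E i
  g : ι → ℕ
  a : ℕ
  pos : 0 < a
  finrank_eq : ∀ i, finrank ℚ (E i) = 2 * g i
  weil : ∀ i, π i * IsCMField.complexConj (E i) (π i) = (p : E i) ^ a

attribute [instance] WeilNumbers.fintype WeilNumbers.field WeilNumbers.numberField WeilNumbers.cm

/-- For every nonempty set `J` of indices, `2 r` times the difference of the sum of the `g i`, `i ∈ J`,
and the angle rank of the `π i`, `i ∈ J`, is less than this sum. -/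
def WeilNumbers.SmallDefect {p : ℕ} (X : WeilNumbers p) (r : ℕ) : Prop :=
  ∀ J : Finset X.ι, J.Nonempty →
    2 * r * (∑ i ∈ J, X.g i - angleRank ((p : ℝ) ^ X.a) (fun i : J => X.π i)) < ∑ i ∈ J, X.g i

/-- The vector space is spanned by eigenvectors of `F` whose eigenvalues are conjugates of the
numbers `π i`. -/
def WeilNumbers.Spanned {p : ℕ} (X : WeilNumbers p) {W : Type} [AddCommGroup W] [Module ℂ W]
    (F : W →ₗ[ℂ] W) : Prop :=
  Submodule.span ℂ {v : W | ∃ i, ∃ σ : X.E i →+* ℂ, F v = σ (X.π i) • v} = ⊤

/-- The first cohomology group `W`, with complex coefficients, of an abelian variety over the field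
with `p ^ a` elements, with its Frobenius endomorphism `F`. The eigenvalues of `F` are conjugates of the
Weil numbers `π i`, whose defects are small. -/
structure SmallAV (p r : ℕ) extends WeilNumbers p where
  small : toWeilNumbers.SmallDefect r
  W : Type
  [addCommGroup : AddCommGroup W]
  [module : Module ℂ W]
  [finite : FiniteDimensional ℂ W]
  F : W →ₗ[ℂ] W
  spanned : toWeilNumbers.Spanned F

attribute [instance] SmallAV.addCommGroup SmallAV.module SmallAV.finite

/-- The cohomology group `H = H ^ w (U)`, with complex coefficients, of a variety `U` over the field with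
`p ^ a` elements, with its Frobenius endomorphism `G`: it is semisimple, its eigenvalues have the
absolute value `p ^ (a w / 2)` and are unrelated to the fields `E i` of the abelian variety `Y`. -/
structure Factor {p r : ℕ} (Y : SmallAV p r) where
  H : Type
  [addCommGroup : AddCommGroup H]
  [module : Module ℂ H]
  [finite : FiniteDimensional ℂ H]
  G : H →ₗ[ℂ] H
  w : ℕ
  weil : Submodule.span ℂ {h : H | ∃ α : ℂ, ‖α‖ ^ 2 = ((p : ℝ) ^ Y.a) ^ w ∧ G h = α • h} = ⊤
  unrelated : ∀ α, Module.End.HasEigenvalue G α → ∀ i, UnrelatedTo (Y.E i) α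

attribute [instance] Factor.addCommGroup Factor.module Factor.finite

/-- The vector space `⋀ ^ j W ⊗ H`. -/
def WedgeTensor (W H : Type) [AddCommGroup W] [Module ℂ W] [AddCommGroup H] [Module ℂ H] (j : ℕ) :
    Type := (⋀[ℂ]^j W) ⊗[ℂ] H

instance (W H : Type) [AddCommGroup W] [Module ℂ W] [AddCommGroup H] [Module ℂ H] (j : ℕ) :
    AddCommGroup (WedgeTensor W H j) := TensorProduct.addCommGroup

instance (W H : Type) [AddCommGroup W] [Module ℂ W] [AddCommGroup H] [Module ℂ H] (j : ℕ) :
    Module ℂ (WedgeTensor W H j) := TensorProduct.leftModule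

/-- The Frobenius endomorphism of `⋀ ^ j W ⊗ H` over the extension of degree `s`. -/
def frobWT {W H : Type} [AddCommGroup W] [Module ℂ W] [AddCommGroup H] [Module ℂ H]
    (F : W →ₗ[ℂ] W) (G : H →ₗ[ℂ] H) (j s : ℕ) : WedgeTensor W H j →ₗ[ℂ] WedgeTensor W H j :=
  TensorProduct.map (exteriorPower.map j F ^ s) (G ^ s)

/-- The class is a linear combination of tensor products of products of divisor classes with
Tate classes in `H = H^w(U)` (over some extension of the field with `Q` elements). -/
def IsAlgebraic {W H : Type} [AddCommGroup W] [Module ℂ W] [AddCommGroup H] [Module ℂ H]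
    (F : W →ₗ[ℂ] W) (G : H →ₗ[ℂ] H) (Q : ℂ) (j w : ℕ) (u : WedgeTensor W H j) : Prop :=
  incl W H j u ∈ tateProducts F G Q j w

/-- The homomorphism `Γ` from `⋀ ^ j W ⊗ H` to `V` is compatible with the Frobenius endomorphisms over
the field with `q = Q ^ s` elements, up to the factor `q ^ c`, and it maps the classes on which this
Frobenius endomorphism acts as multiplication by `q ^ c` and which are linear combinations of tensor
products of products of divisor classes with Tate classes in `H` to `A`. -/
def IsCorrespondence {W H V : Type} [AddCommGroup W] [Module ℂ W] [AddCommGroup H] [Module ℂ H]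
    [AddCommGroup V] [Module ℂ V] (F : W →ₗ[ℂ] W) (G : H →ₗ[ℂ] H) (Fr : V →ₗ[ℂ] V)
    (Q q : ℂ) (j w s c : ℕ) (A : Submodule ℂ V) (Γ : WedgeTensor W H j →ₗ[ℂ] V) : Prop :=
  (∀ u, Γ (frobWT F G j s u) = q ^ c • Fr (Γ u)) ∧
    ∀ u, frobWT F G j s u = q ^ c • u → IsAlgebraic F G Q j w u → Γ u ∈ A

/-- A part of the cohomology group `V = H^{2 i}(X, i)`, with complex coefficients, of a variety `X` over
the field with `p ^ n` elements that comes from the product `Y × U` of an abelian variety `Y` with small
defects and a variety `U` over the field with `p ^ a` elements, `n = a * s`. Here `Fr` is the Frobenius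
endomorphism of `V` and `A ⊆ V` is the subspace spanned by the classes of algebraic cycles on `X`. The
homomorphism `Γ : H^j(Y) ⊗ H^w(U) (c) → V`, `j ≤ 2 r`, `j + w = 2 c`, is given by an algebraic
correspondence between `Y × U` and `X` (`IsCorrespondence`). -/
structure Piece (p r n : ℕ) {V : Type} [AddCommGroup V] [Module ℂ V] (Fr : V →ₗ[ℂ] V)
    (A : Submodule ℂ V) where
  Y : SmallAV p r
  U : Factor Y
  s : ℕ
  pos : 0 < s
  degree : Y.a * s = n
  j : ℕ
  c : ℕ
  small : j ≤ 2 * r
  weight : j + U.w = 2 * c
  Γ : WedgeTensor Y.W U.H j →ₗ[ℂ] V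
  isCorrespondence : IsCorrespondence Y.F U.G Fr ((p : ℂ) ^ Y.a) ((p : ℂ) ^ n) j U.w s c A Γ

/-- The image of `Γ`. -/
def Piece.range {p r n : ℕ} {V : Type} [AddCommGroup V] [Module ℂ V] {Fr : V →ₗ[ℂ] V}
    {A : Submodule ℂ V} (P : Piece p r n Fr A) : Submodule ℂ V := LinearMap.range P.Γ

end

end Run7.h89.TL
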