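import Mathlib
import Pool.Agent.TH117.BL.Pole
import Pool.Agent.Run7.h89.TL.ConstDefs
import Pool.Agent.Run7.h89.TL.Fin

/-!
# Constant varieties over function fields and classes of small degree
-/

set_option autoImplicit false
set_option linter.unusedSectionVars false
set_option linter.unusedVariables false

namespace Run7.h89.TL

open NumberField Module Filter Topology Pool.Agent.W484.BB Pool.Agent.W484.AA Pool.Agent.Y1.CT
  Pool.Agent.TH117.BL
open scoped TensorProduct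

noncomputable section

theorem norm_eigen {p r : ℕ} [Fact p.Prime] (Y : SmallAV p r) (i : Y.ι) (σ : Y.E i →+* ℂ) :
    ‖σ (Y.π i)‖ ^ 2 = (p : ℝ) ^ Y.a := by
  have h1 := congrArg σ (Y.weil i)
  rw [map_mul, IsCMField.complexEmbedding_complexConj, map_pow, map_natCast,
    Complex.mul_conj, Complex.normSq_eq_norm_sq] at h1
  exact_mod_cast h1

theorem norm_prod_eigen {p r : ℕ} [Fact p.Prime] (Y : SmallAV p r)
    (L : List (Σ i, (Y.E i →+* ℂ))) :
    ‖(L.map (fun x : Σ i, (Y.E i →+* ℂ) => x.2 (Y.π x.1))).prod‖ ^ 2 =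
      ((p : ℝ) ^ Y.a) ^ L.length := by
  induction L with
  | nil => simp
  | cons x L ih =>
    rw [List.map_cons, List.prod_cons, norm_mul, mul_pow, ih, norm_eigen, List.length_cons,
      pow_succ, mul_comm]

theorem piece_good' {p r n : ℕ} [Fact p.Prime] {V : Type} [AddCommGroup V] [Module ℂ V]
    {Fr : V →ₗ[ℂ] V} {A : Submodule ℂ V} (P : Piece p r n Fr A) :
    LinearMap.range P.Γ ≤ Submodule.span ℂ (Good Fr A) := by
  classical
  have hp0 : (0 : ℝ) < p := by exact_mod_cast (Fact.out : p.Prime).pos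
  have hpc : (p : ℂ) ≠ 0 := by exact_mod_cast (Fact.out : p.Prime).ne_zero
  have hQ : ((p : ℂ) ^ n) ^ P.c ≠ 0 := pow_ne_zero _ (pow_ne_zero _ hpc)
  let val : (Σ i, (P.Y.E i →+* ℂ)) → ℂ := fun x => x.2 (P.Y.π x.1)
  have hspan : Submodule.span ℂ {v : P.Y.W | ∃ x, P.Y.F v = val x • v} = ⊤ := by
    have h0 := P.Y.spanned
    rw [WeilNumbers.Spanned] at h0
    rw [eq_top_iff, ← h0]
    refine Submodule.span_mono ?_
    rintro v ⟨i, σ, hv⟩
    exact ⟨⟨i, σ⟩, hv⟩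
  obtain ⟨m, b, α, hα, hb⟩ := exists_eigenbasis_list P.Y.F val hspan P.j
  have hmain := finite_low P.Y.pos P.Y.finrank_eq P.Y.weil P.Y.small P.Y.F P.Y.spanned
    one_pos P.U.G P.U.w P.U.unrelated
  rw [pow_one, pow_one] at hmain
  let T : (⋀[ℂ]^P.j P.Y.W) ⊗[ℂ] P.U.H →ₗ[ℂ] V := P.Γ
  have hTeq : ∀ u, T (TensorProduct.map (exteriorPower.map P.j P.Y.F ^ P.s) (P.U.G ^ P.s) u) =
    ((p : ℂ) ^ n) ^ P.c • Fr (T u) := P.isCorrespondence.1
  have hTalg : ∀ u, TensorProduct.map (exteriorPower.map P.j P.Y.F ^ P.s) (P.U.G ^ P.s) u =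
    ((p : ℂ) ^ n) ^ P.c • u → incl P.Y.W P.U.H P.j u ∈
      tateProducts P.Y.F P.U.G ((p : ℂ) ^ P.Y.a) P.j P.U.w → T u ∈ A := P.isCorrespondence.2
  -- eigenvectors
  have key : ∀ (k : Fin m) (h : P.U.H) (ρ : ℂ), ‖ρ‖ ^ 2 = ((p : ℝ) ^ P.Y.a) ^ P.U.w →
      P.U.G h = ρ • h → T (b k ⊗ₜ h) ∈ Submodule.span ℂ (Good Fr A) := by
    intro k h ρ hρ hh
    have h1 : TensorProduct.map (exteriorPower.map P.j P.Y.F ^ P.s) (P.U.G ^ P.s) (b k ⊗ₜ h) =
        (α k ^ P.s * ρ ^ P.s) • (b k ⊗ₜ[ℂ] h) := by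
      rw [TensorProduct.map_tmul, pow_apply_eigen _ _ _ (hb k), pow_apply_eigen _ _ _ hh,
        TensorProduct.smul_tmul_smul]
    refine Submodule.subset_span ⟨(α k ^ P.s * ρ ^ P.s) / ((p : ℂ) ^ n) ^ P.c, ?_, ?_, ?_⟩
    · obtain ⟨L, hL, hαL⟩ := hα k
      have h2 : ‖α k‖ ^ 2 = ((p : ℝ) ^ P.Y.a) ^ P.j := by
        rw [hαL, norm_prod_eigen, hL]
      have h3 : (‖α k ^ P.s * ρ ^ P.s‖) ^ 2 = (((p : ℝ) ^ n) ^ P.c) ^ 2 := by
        rw [norm_mul, norm_pow, norm_pow, mul_pow, ← pow_mul, ← pow_mul, mul_comm P.s 2,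
          pow_mul, pow_mul, h2, hρ, ← pow_mul, ← pow_mul, ← pow_mul, ← pow_mul, ← pow_add,
          ← pow_mul, ← pow_mul]
        congr 1
        have h4 := P.weight
        have h5 := P.degree
        calc P.Y.a * (P.j * P.s) + P.Y.a * (P.U.w * P.s) =
              (P.Y.a * P.s) * (P.j + P.U.w) := by ring
          _ = n * (2 * P.c) := by rw [h4, h5]
          _ = n * (P.c * 2) := by ring
      have h4 : ‖α k ^ P.s * ρ ^ P.s‖ = ((p : ℝ) ^ n) ^ P.c :=
        (pow_left_inj₀ (norm_nonneg _) (by positivity) two_ne_zero).1 h3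
      rw [norm_div, h4, norm_pow, norm_pow, Complex.norm_natCast]
      exact div_self (by positivity)
    · have h2 := hTeq (b k ⊗ₜ h)
      rw [h1, map_smul] at h2
      have h3 : Fr (T (b k ⊗ₜ h)) = (((p : ℂ) ^ n) ^ P.c)⁻¹ •
          ((((p : ℂ) ^ n) ^ P.c) • Fr (T (b k ⊗ₜ h))) := by
        rw [smul_smul, inv_mul_cancel₀ hQ, one_smul]
      rw [h3, ← h2, smul_smul, div_eq_inv_mul]
    · intro h3
      rw [div_eq_one_iff_eq hQ] at h3
      rw [h3] at h1
      refine hTalg _ h1 (hmain P.j P.c P.s P.small P.weight P.pos _ ?_)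
      rw [h1]
      congr 1
      rw [← pow_mul, ← pow_mul, ← pow_mul]
      congr 1
      have h5 := P.degree
      calc n * P.c = (P.Y.a * P.s) * P.c := by rw [h5]
        _ = P.Y.a * (P.c * P.s) := by ring
  -- all vectors
  have key2 : ∀ (k : Fin m) (h : P.U.H), T (b k ⊗ₜ h) ∈ Submodule.span ℂ (Good Fr A) := by
    intro k h
    have h1 : h ∈ Submodule.span ℂ {h : P.U.H | ∃ α : ℂ,
        ‖α‖ ^ 2 = ((p : ℝ) ^ P.Y.a) ^ P.U.w ∧ P.U.G h = α • h} := by
      rw [P.U.weil]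
      trivial
    refine Submodule.span_induction ?_ ?_ ?_ ?_ h1
    · rintro x ⟨ρ, hρ, hx⟩
      exact key k x ρ hρ hx
    · rw [TensorProduct.tmul_zero, map_zero]
      exact Submodule.zero_mem _
    · intro x y _ _ hx hy
      rw [TensorProduct.tmul_add, map_add]
      exact Submodule.add_mem _ hx hy
    · intro c x _ hx
      rw [TensorProduct.tmul_smul, map_smul]
      exact Submodule.smul_mem _ _ hx
  have key3 : ∀ u : (⋀[ℂ]^P.j P.Y.W) ⊗[ℂ] P.U.H, T u ∈ Submodule.span ℂ (Good Fr A) := by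
    intro u
    induction u using TensorProduct.induction_on with
    | zero =>
      rw [map_zero]
      exact Submodule.zero_mem _
    | add x y hx hy =>
      rw [map_add]
      exact Submodule.add_mem _ hx hy
    | tmul x h =>
      rw [← b.sum_repr x, TensorProduct.sum_tmul, map_sum]
      refine Submodule.sum_mem _ fun k _ => ?_
      rw [← TensorProduct.smul_tmul', map_smul]
      exact Submodule.smul_mem _ _ (key2 k h)
  rintro _ ⟨u, rfl⟩
  exact key3 u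

theorem pieces_good' {p r n : ℕ} [Fact p.Prime] {V : Type} [AddCommGroup V] [Module ℂ V]
    {Fr : V →ₗ[ℂ] V} {A : Submodule ℂ V} {ι : Type} (P : ι → Piece p r n Fr A)
    (hgen : ⨆ i, LinearMap.range (P i).Γ = ⊤) : Submodule.span ℂ (Good Fr A) = ⊤ := by
  rw [eq_top_iff, ← hgen]
  exact iSup_le fun i => piece_good' (P i)

theorem pieces_finite' {p r n : ℕ} [Fact p.Prime] {V : Type} [AddCommGroup V] [Module ℂ V]
    {Fr : V →ₗ[ℂ] V} {A : Submodule ℂ V} {ι : Type} [Finite ι] (P : ι → Piece p r n Fr A)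
    (hgen : ⨆ i, LinearMap.range (P i).Γ = ⊤) : FiniteDimensional ℂ V := by
  have h : ∀ i, FiniteDimensional ℂ (LinearMap.range (P i).Γ) := by
    intro i
    have h0 : FiniteDimensional ℂ (WedgeTensor (P i).Y.W (P i).U.H (P i).j) :=
      inferInstanceAs (FiniteDimensional ℂ ((⋀[ℂ]^(P i).j (P i).Y.W) ⊗[ℂ] (P i).U.H))
    infer_instance
  have h2 : FiniteDimensional ℂ (⨆ i, LinearMap.range (P i).Γ : Submodule ℂ V) :=
    Submodule.finite_iSup _
  rw [hgen] at h2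
  exact Module.finite_def.2 ((Submodule.fg_top (⊤ : Submodule ℂ V)).1 (Module.finite_def.1 h2))

/-- **The Tate conjecture, with the order of the pole, for constant varieties.** -/
theorem const_low (p : ℕ) [Fact p.Prime] (r n : ℕ) (hn : 0 < n)
    {V V' : Type} [AddCommGroup V] [Module ℂ V] [AddCommGroup V'] [Module ℂ V'] [Module ℚ V]
    [Module ℚ V'] (Fr : V →ₗ[ℂ] V) (Fr' : V' →ₗ[ℂ] V') (B : V →ₗ[ℂ] V' →ₗ[ℂ] ℂ)
    (A : Submodule ℚ V) (A' : Submodule ℚ V') (H : IsCyclePair Fr Fr' B A A')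
    {ι ι' : Type} [Finite ι] [Finite ι']
    (S : ι → Piece p r n Fr (Submodule.span ℂ (A : Set V)))
    (hS : ⨆ i, (S i).range = ⊤)
    (S' : ι' → Piece p r n Fr' (Submodule.span ℂ (A' : Set V')))
    (hS' : ⨆ i, (S' i).range = ⊤) {P : Type} (deg : P → ℕ) (D : ℕ)
    (hP : IsBase (p ^ n) D deg) :
    finrank ℚ A = finrank ℂ (LinearMap.eqLocus Fr LinearMap.id) ∧
    ∃ Φ : ℂ → ℂ, IsEulerProduct (p ^ n) D deg Fr Φ ∧ ∃ c : ℂ, c ≠ 0 ∧
      Tendsto (fun s : ℝ => ((s : ℂ) - D) ^ finrank ℚ A * Φ s) (𝓝[>] (D : ℝ)) (𝓝 c) := by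
  have := pieces_finite' S hS
  have := pieces_finite' S' hS'
  have h1 := pieces_good' S hS
  have h2 := pieces_good' S' hS'
  have h3 := rank_eq H h1 h2
  refine ⟨h3, ?_⟩
  rw [h3]
  exact pole (p ^ n) D (Nat.one_lt_pow hn.ne' (Fact.out : p.Prime).one_lt) deg hP Fr
    (good_span Fr _ h1)

end

end Run7.h89.TL
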