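import Mathlib
import Pool.Agent.Run7.h89.TL.Comp
import Pool.Agent.Run7.h89.TL.Defs
import Pool.Agent.Y137.MV.Final
import Pool.Agent.Y137.MV.Criteria

/-!
# The splitting of the classes of small degree
-/

set_option autoImplicit false
set_option linter.unusedSectionVars false
set_option linter.unusedVariables false

namespace Run7.h89.TL

open NumberField Module TensorProduct IntermediateField
open Pool.Agent.H204R3.CM Pool.Agent.H204R3.SP Pool.Agent.H204R3.GP Pool.Agent.Y137.MV
  Pool.Agent.Y137.SL Pool.Agent.Y1.CT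

theorem split_low {p : ℕ} [Fact p.Prime] {a : ℕ}
    {ι : Type} [Fintype ι] {F : ι → Type} [∀ i, Field (F i)] [∀ i, NumberField (F i)]
    [∀ i, IsCMField (F i)] {g : ι → ℕ} (hg : ∀ i, finrank ℚ (F i) = 2 * g i)
    {π : ∀ i, F i} (hgen : ∀ i, ℚ⟮π i⟯ = ⊤)
    (hw : ∀ i, π i * IsCMField.complexConj (F i) (π i) = (p : F i) ^ a)
    {r : ℕ} (hr1 : 1 ≤ r) (hr : ∀ J : Finset ι, J.Nonempty →
      2 * r * (∑ i ∈ J, g i - angleRank ((p : ℝ) ^ a) (fun i : J => π i)) < ∑ i ∈ J, g i)
    {k : Type*} [Field k] [CharZero k] {V : Type*} [AddCommGroup V] [Module k V]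
    [FiniteDimensional k V] {M : Type*} [AddCommGroup M] [Module k M] [FiniteDimensional k M]
    {Γ : Type*} [Group Γ] {ρ : Representation k Γ V} {τ : Representation k Γ M} {χ : Γ →* k}
    {γ : Γ} (hp : IsPolarised ρ χ γ p a π)
    {f : Polynomial ℚ} (hf0 : f ≠ 0) (hfγ : Polynomial.aeval (τ γ) (f.map (algebraMap ℚ k)) = 0)
    (hf : ∀ α : ℂ, Polynomial.aeval α f = 0 → ∀ i, UnrelatedTo (F i) α) :
    ClassesSplitUpTo ρ χ τ r := by
  classical
  obtain ⟨hss, ⟨ω, halt, hnd, hωρ⟩, hχ, hγ⟩ := hp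
  have hg' : ∀ i, finrank ℚ (maximalRealSubfield (F i)) = g i := by
    intro i
    have h0 : finrank (maximalRealSubfield (F i)) (F i) = 2 :=
      Algebra.IsQuadraticExtension.finrank_eq_two _ _
    have h1 := finrank_mul_finrank ℚ (maximalRealSubfield (F i)) (F i)
    rw [h0, hg i] at h1
    omega
  have hr' : SmallDefect p a π r := by
    intro J hJ
    simp only [hg']
    exact hr J hJ
  obtain ⟨L, hLa, hLb, j, h, hroots⟩ := exists_galois_roots F f hf0
  have hun : ∀ β : L, Polynomial.aeval β f = 0 → ∀ i, UnrelatedTo (F i) (j β) := by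
    intro β hβ i
    refine hf (j β) ?_ i
    have h1 := Polynomial.aeval_algHom_apply (RingHom.equivRatAlgHom L ℂ j) β f
    rw [hβ, map_zero] at h1
    exact h1
  have hss' : ∀ Δ : Subgroup Γ, Δ.FiniteIndex → SemiUnder (ρ '' (Δ : Set Γ)) := by
    intro Δ hΔ U hU
    obtain ⟨U', h1, h2⟩ := hss Δ hΔ U (fun s hs u hu => hU _ ⟨s, hs, rfl⟩ u hu)
    refine ⟨U', ?_, h1⟩
    rintro _ ⟨s, hs, rfl⟩ u hu
    exact h2 s hs u hu
  constructor
  · intro n m hm g hg
    have h1 := final_step ρ χ τ g hg (fun l => alt_of_comp ρ χ _ (fun c => by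
      have h2 := comp_mem_low (L := L) ρ χ τ hgen hw j h hr1 hr' ω halt hnd hωρ hss' γ hχ hγ hun
        hroots hfγ hm (component_eqv hg c) l
      exact h2))
    refine Submodule.span_mono ?_ h1
    rintro x ⟨y, ⟨B, hB, hy⟩, w, hw, hx⟩
    refine ⟨B, w, hB, hw, fun v => ?_⟩
    rw [hx, hy]
  · intro n m hm g hg
    ext v
    have h1 : v = fun l => ∑ i, Pi.single i (v l i) := by
      funext l
      exact (Finset.univ_sum_single (v l)).symm
    have h2 : g v = ∑ c : Fin (2 * m + 1) → Fin n,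
        g.toMultilinearMap.compLinearMap
          (fun l => LinearMap.single k (fun _ : Fin n => V) (c l)) (fun l => v l (c l)) := by
      conv_lhs => rw [h1]
      exact g.toMultilinearMap.map_sum (fun l i => Pi.single i (v l i))
    rw [h2]
    refine Finset.sum_eq_zero fun c _ => ?_
    have h3 := odd_zero_low (L := L) ρ χ τ hgen hw j h hr1 hr' ω halt hnd hωρ γ hχ hγ hun hroots
        hfγ (κ := Fin (2 * m + 1)) (by
          rw [Fintype.card_fin]
          exact ⟨m, rfl⟩) (by rw [Fintype.card_fin]; exact hm) (component_eqv hg c)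
    rw [h3]
    rfl

end Run7.h89.TL
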